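import Pool.Agent.Helper59.SL.GoalsA

/-! Packet SLG ARCHA. -/

namespace Pool.Agent.Helper12.SLG.ARCHA

open Pool.Agent.Helper51.SigLeo Pool.Agent.Helper51.SixExp Pool.Agent.Helper17.SL
  Pool.Agent.Helper59.SL NumberField Module TensorProduct

universe u v w

theorem thm (hA : S_ARCH.{w}) : S_ARCHA.{u, v, w} := by
  intro F K H _ _ _ _ _ _ _ _ _ _ _ hd hKF φ₁ φ₂ hne θ x hx h1 h2
  apply hA
  have key : ∀ (φ φ' : H →+* ℂ), extHom (logC φ') x = 0 →
      (φ.comp (algebraMap K H)).comp (algebraMap F K) =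
        (φ'.comp (algebraMap K H)).comp (algebraMap F K) → extHom (logC φ) x = 0 := by
    intro φ φ' h0 h
    rcases eq_or_eq_conjugate hKF (φ.comp (algebraMap K H)) (φ'.comp (algebraMap K H)) h
      with h3 | h3
    · obtain ⟨g, hg⟩ := exists_gal_comp (K := K) φ' φ h3.symm
      rw [hg, extHom_logC_gal, hx g, map_smul, h0, smul_zero]
    · have h4 : (ComplexEmbedding.conjugate φ).comp (algebraMap K H) =
          φ'.comp (algebraMap K H) := by
        rw [ComplexEmbedding.conjugate_comp, h3]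
      obtain ⟨g, hg⟩ := exists_gal_comp (K := K) φ' _ h4
      rw [← logC_conjugate φ, hg, extHom_logC_gal, hx g, map_smul, h0, smul_zero]
  intro φ
  rcases eq_or_eq_of_quadratic hd hne ((φ.comp (algebraMap K H)).comp (algebraMap F K))
    with h | h
  · exact key φ φ₁ h1 h
  · exact key φ φ₂ h2 h

end Pool.Agent.Helper12.SLG.ARCHA
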