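import Pool.Agent.Helper59.SL.GoalsG

/-! Packet SLG ARCHB. -/

namespace Pool.Agent.Helper12.SLG.ARCHB

open Pool.Agent.Helper51.SigLeo Pool.Agent.Helper51.SixExp Pool.Agent.Helper17.SL
  Pool.Agent.Helper59.SL NumberField Module TensorProduct

universe u v

theorem thm (hA : S_ARCH.{v}) : S_ARCHB.{u, v} := by
  intro F H _ _ _ _ _ _ _ θ x hx φ₁ hθ h1
  apply hA
  intro φ
  by_cases h : φ.comp (algebraMap F H) = φ₁.comp (algebraMap F H)
  · obtain ⟨g, hg⟩ := exists_gal_comp φ₁ φ h
    rw [hg, extHom_logC_gal, hx g, map_smul, h1, smul_zero]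
  · have hres : (ComplexEmbedding.conjugate φ).comp (algebraMap F H) =
        φ.comp (algebraMap F H) := by
      rw [ComplexEmbedding.conjugate_comp, conjugate_real]
    obtain ⟨γ, hγ⟩ := exists_gal_comp φ _ hres
    have h2 := hθ φ γ h hγ
    have h3 : extHom (logC φ) x = θ γ * extHom (logC φ) x := by
      conv_lhs => rw [← logC_conjugate φ, hγ, extHom_logC_gal, hx γ, map_smul, smul_eq_mul]
    have h4 : (θ γ - 1) * extHom (logC φ) x = 0 := by linear_combination -h3
    rcases mul_eq_zero.1 h4 with h5 | h5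
    · exact absurd (sub_eq_zero.1 h5) h2
    · exact h5

end Pool.Agent.Helper12.SLG.ARCHB
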