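import Pool.Agent.Helper59.SL.GoalsA

/-! Packet SLG FAILA. -/

namespace Pool.Agent.Helper12.SLG.FAILA

open Pool.Agent.Helper51.SigLeo Pool.Agent.Helper51.SixExp Pool.Agent.Helper17.SL
  Pool.Agent.Helper59.SL NumberField Module TensorProduct

universe u v w x y

theorem thm : S_FAILA.{u, v, w, x, y} := by
  intro hINJ p _ k _ _ _ _ _ _ Ω _ _ _ _ ι Λ E _ _ lam K H _ _ _ _ _ χ₀ n m hn hlin hspan χ hχ
    T hT hfail
  unfold InjectiveOn at hfail
  push Not at hfail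
  obtain ⟨z, hz0, hz⟩ := hfail
  set y := eChi (finrank K H) χ unitsHom z with hy
  have hE : Eig (fun γ : H ≃ₐ[K] H ↦ ι (lam (χ₀ γ : E))) y := by
    intro γ
    have h1 := eig_eChi (finrank K H) χ z γ
    rw [← hy] at h1
    rw [h1]
    show (χ γ : k) • y = ι (lam (χ₀ γ : E)) • y
    rw [hχ]
  obtain ⟨c, hc⟩ := hspan y hE
  have hc0 : c ≠ 0 := by
    rintro rfl
    apply hz
    rw [hc]
    simp
  have hsum : ∀ τ ∈ T, ∑ j, c j * extHom (logUnits Λ τ) (cc (ι.comp lam) (m j)) = 0 := by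
    intro τ hτ
    have h1 := hz0 (logUnits Λ τ) ⟨τ, hτ, rfl⟩
    rw [hc, map_sum] at h1
    rw [← h1]
    refine Finset.sum_congr rfl fun j _ ↦ ?_
    rw [map_smul, smul_eq_mul]
  refine ⟨?_, c, hc0, hsum⟩
  have hn0 : n ≠ 0 := by
    rintro rfl
    exact hc0 (Subsingleton.elim _ _)
  have hn1 : n ≠ 1 := by
    rintro rfl
    obtain ⟨τ, hτ⟩ := hT
    have h1 := hsum τ hτ
    rw [Fin.sum_univ_one] at h1
    have hc1 : c 0 ≠ 0 := by
      intro h2
      apply hc0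
      funext i
      rw [Subsingleton.elim i 0, h2]
      rfl
    have h3 := (mul_eq_zero.1 h1).resolve_left hc1
    have h4 := hINJ p k Ω ι Λ E lam H τ (m 0) h3
    exact hlin.ne_zero 0 h4
  omega

end Pool.Agent.Helper12.SLG.FAILA
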