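import Pool.Agent.Helper59.SL.GoalsC

/-! Packet SLG INJ. -/

namespace Pool.Agent.Helper12.SLG.INJ

open Pool.Agent.Helper51.SigLeo Pool.Agent.Helper51.SixExp Pool.Agent.Helper17.SL
  Pool.Agent.Helper59.SL NumberField Module TensorProduct

universe u v w x

theorem thm (hT : S_TRT.{u, v, w}) (hA : S_ARCH.{x}) (hB : S_BC.{w, 0, x, 0}) :
    S_INJ.{u, v, w, x} := by
  intro p _ k _ _ _ _ _ _ Ω _ _ _ _ ι Λ E _ _ lam H _ _ τ m h0
  obtain ⟨σ, hσ⟩ := exists_lift_embedding ι τ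
  have h1 : extHom (logUnits Λ ι) (cc (ι.comp lam) (pf E σ m)) = 0 := by
    rw [cc_pf, extHom_logUnits_pf, hσ, h0]
  have h2 := hT p k Ω ι Λ E lam (pf E σ m) h1
  obtain ⟨ε, -⟩ := exists_extend_embedding (K := ℚ) (H := E) (algebraMap ℚ ℂ)
  have h3 : cc ε m = 0 := by
    apply hA
    intro φ
    let _ : Algebra H Ω := σ.toAlgebra
    have _ : IsScalarTower ℚ H Ω := IsScalarTower.of_algebraMap_eq fun q ↦ by
      rw [eq_ratCast, eq_ratCast, map_ratCast]
    have _ : Algebra.IsAlgebraic H Ω := Algebra.IsAlgebraic.tower_top (K := ℚ) H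
    obtain ⟨ι', hι'⟩ := exists_extend_embedding (K := H) (H := Ω) φ
    have h4 : ι'.comp σ = φ := hι'
    have h5 := h2 ε ι'
    rw [cc_pf, extHom_logC_pf, h4] at h5
    exact h5
  by_contra hm
  have h4 : LinearIndependent E (fun _ : Unit ↦ m) := by
    rw [linearIndependent_unique_iff]
    exact hm
  have h5 := hB E ℂ ε (Additive (𝓞 H)ˣ) Unit (fun _ ↦ m) h4
  exact h5.ne_zero () h3

end Pool.Agent.Helper12.SLG.INJ
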